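import Pool.Agent.Helper86.TC8.Stmts

/-!
TC8, module BRI: bridges can be inserted.
-/

set_option autoImplicit false

namespace Pool.Agent.Helper91.TC8

open Pool.Agent.Helper86.TC8
open SimpleGraph

namespace Bri

/-- the permutation of the colours -/
theorem exists_perm (a b p q : Fin 4) (hab : a ≠ b) (hpq : p ≠ q) :
    ∃ π : Equiv.Perm (Fin 4), π a = p ∧ π b = q := by
  revert a b p q
  decide

/-- a third colour -/
theorem exists_ne2 (a b : Fin 4) : ∃ x : Fin 4, x ≠ a ∧ x ≠ b := by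
  revert a b
  decide

variable {V : Type}

/-- a free colour at a vertex of degree at most 2 -/
theorem exists_free [Finite V] (S : Set V) (hS : S.ncard ≤ 2) (d : V → Fin 4) (c : Fin 4) :
    ∃ α : Fin 4, α ≠ c ∧ ∀ x ∈ S, d x ≠ α := by
  by_contra hcon
  push Not at hcon
  have h1 : (insert c (d '' S) : Set (Fin 4)) = Set.univ := by
    ext α
    simp only [Set.mem_insert_iff, Set.mem_image, Set.mem_univ, iff_true]
    by_cases h : α = c
    · exact Or.inl h
    · obtain ⟨x, hx, hx2⟩ := hcon α h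
      exact Or.inr ⟨x, hx, hx2⟩
  have h2 : (insert c (d '' S) : Set (Fin 4)).ncard ≤ (d '' S).ncard + 1 :=
    Set.ncard_insert_le _ _
  have h3 : (d '' S).ncard ≤ S.ncard := Set.ncard_image_le (Set.toFinite S)
  rw [h1, Set.ncard_univ, Nat.card_eq_fintype_card, Fintype.card_fin] at h2
  omega

open Classical in
/-- inserting one edge between two components -/
theorem add_edge [Finite V] (H H' : SimpleGraph V) (u v : V) (hr : ¬ H.Reachable u v)
    (hdu : (H.neighborSet u).ncard ≤ 2) (hdv : (H.neighborSet v).ncard ≤ 2)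
    (hH : ∀ a b, H'.Adj a b ↔ H.Adj a b ∨ (a = u ∧ b = v) ∨ (a = v ∧ b = u))
    (h : TC4 H) : TC4 H' := by
  obtain ⟨c, d, h1, h2, h3, h4⟩ := h
  obtain ⟨α, hα1, hα2⟩ := exists_free (H.neighborSet u) hdu (d u) (c u)
  obtain ⟨β, hβ1, hβ2⟩ := exists_free (H.neighborSet v) hdv (d v) (c v)
  obtain ⟨γ, hγ1, hγ2⟩ := exists_ne2 α (c u)
  obtain ⟨π, hπ1, hπ2⟩ := exists_perm β (c v) α γ hβ1 hγ1.symm
  have huC : ¬ H.Reachable v u := fun h => hr h.symm
  have hvC : H.Reachable v v := Reachable.refl v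
  have hC : ∀ a b, H.Adj a b → (H.Reachable v a ↔ H.Reachable v b) := fun a b hab =>
    ⟨fun h => h.trans hab.reachable, fun h => h.trans hab.symm.reachable⟩
  have hnuv : ¬ H.Adj u v := fun h => hr h.reachable
  have hnvu : ¬ H.Adj v u := fun h => hr h.reachable.symm
  have huv : u ≠ v := by
    rintro rfl
    exact hr (Reachable.refl u)
  -- new colourings
  let c' : V → Fin 4 := fun x => if H.Reachable v x then π (c x) else c x
  let d' : V → V → Fin 4 := fun x y =>
    if (x = u ∧ y = v) ∨ (x = v ∧ y = u) then α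
    else if H.Reachable v x then π (d x y) else d x y
  have hd1 : ∀ x y, H.Adj x y → H.Reachable v x → d' x y = π (d x y) := by
    intro x y hxy hx
    have : ¬ ((x = u ∧ y = v) ∨ (x = v ∧ y = u)) := by
      rintro (⟨rfl, rfl⟩ | ⟨rfl, rfl⟩)
      · exact hnuv hxy
      · exact hnvu hxy
    change (if (x = u ∧ y = v) ∨ (x = v ∧ y = u) then α
      else if H.Reachable v x then π (d x y) else d x y) = _
    rw [if_neg this, if_pos hx]
  have hd2 : ∀ x y, H.Adj x y → ¬ H.Reachable v x → d' x y = d x y := by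
    intro x y hxy hx
    have : ¬ ((x = u ∧ y = v) ∨ (x = v ∧ y = u)) := by
      rintro (⟨rfl, rfl⟩ | ⟨rfl, rfl⟩)
      · exact hnuv hxy
      · exact hnvu hxy
    change (if (x = u ∧ y = v) ∨ (x = v ∧ y = u) then α
      else if H.Reachable v x then π (d x y) else d x y) = _
    rw [if_neg this, if_neg hx]
  have hd3 : d' u v = α := if_pos (Or.inl ⟨rfl, rfl⟩)
  have hd4 : d' v u = α := if_pos (Or.inr ⟨rfl, rfl⟩)
  have hc1 : ∀ x, H.Reachable v x → c' x = π (c x) := fun x hx => if_pos hx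
  have hc2 : ∀ x, ¬ H.Reachable v x → c' x = c x := fun x hx => if_neg hx
  have e1 : ∀ x y, H.Adj x y → d' x y = d' y x := by
    intro x y hxy
    by_cases hx : H.Reachable v x
    · rw [hd1 x y hxy hx, hd1 y x hxy.symm ((hC x y hxy).1 hx), h1 x y hxy]
    · rw [hd2 x y hxy hx, hd2 y x hxy.symm (fun h => hx ((hC x y hxy).2 h)), h1 x y hxy]
  have e2 : ∀ x y, H.Adj x y → c' x ≠ c' y := by
    intro x y hxy
    by_cases hx : H.Reachable v x
    · rw [hc1 x hx, hc1 y ((hC x y hxy).1 hx)]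
      exact fun h => h2 x y hxy (π.injective h)
    · rw [hc2 x hx, hc2 y (fun h => hx ((hC x y hxy).2 h))]
      exact h2 x y hxy
  have e3 : ∀ x y z, H.Adj x y → H.Adj x z → y ≠ z → d' x y ≠ d' x z := by
    intro x y z hxy hxz hyz
    by_cases hx : H.Reachable v x
    · rw [hd1 x y hxy hx, hd1 x z hxz hx]
      exact fun h => h3 x y z hxy hxz hyz (π.injective h)
    · rw [hd2 x y hxy hx, hd2 x z hxz hx]
      exact h3 x y z hxy hxz hyz
  have e4 : ∀ x y, H.Adj x y → d' x y ≠ c' x := by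
    intro x y hxy
    by_cases hx : H.Reachable v x
    · rw [hd1 x y hxy hx, hc1 x hx]
      exact fun h => h4 x y hxy (π.injective h)
    · rw [hd2 x y hxy hx, hc2 x hx]
      exact h4 x y hxy
  have fu : ∀ z, H.Adj u z → d' u v ≠ d' u z := by
    intro z hz
    rw [hd3, hd2 u z hz huC]
    exact (hα2 z hz).symm
  have fv : ∀ z, H.Adj v z → d' v u ≠ d' v z := by
    intro z hz
    rw [hd4, hd1 v z hz hvC, ← hπ1]
    exact fun h => hβ2 z hz (π.injective h).symm
  refine ⟨c', d', ?_, ?_, ?_, ?_⟩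
  · intro x y hxy
    rcases (hH x y).1 hxy with h | ⟨rfl, rfl⟩ | ⟨rfl, rfl⟩
    · exact e1 x y h
    · rw [hd3, hd4]
    · rw [hd3, hd4]
  · intro x y hxy
    rcases (hH x y).1 hxy with h | ⟨rfl, rfl⟩ | ⟨rfl, rfl⟩
    · exact e2 x y h
    · rw [hc2 x huC, hc1 y hvC, hπ2]
      exact hγ2.symm
    · rw [hc2 y huC, hc1 x hvC, hπ2]
      exact hγ2
  · intro x y z hxy hxz hyz
    rcases (hH x y).1 hxy with h | ⟨rfl, rfl⟩ | ⟨rfl, rfl⟩
    · rcases (hH x z).1 hxz with h' | ⟨rfl, rfl⟩ | ⟨rfl, rfl⟩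
      · exact e3 x y z h h' hyz
      · exact (fu y h).symm
      · exact (fv y h).symm
    · rcases (hH x z).1 hxz with h' | ⟨-, rfl⟩ | ⟨h5, -⟩
      · exact fu z h'
      · exact absurd rfl hyz
      · exact absurd h5 huv
    · rcases (hH x z).1 hxz with h' | ⟨h5, -⟩ | ⟨-, rfl⟩
      · exact fv z h'
      · exact absurd h5.symm huv
      · exact absurd rfl hyz
  · intro x y hxy
    rcases (hH x y).1 hxy with h | ⟨rfl, rfl⟩ | ⟨rfl, rfl⟩
    · exact e4 x y h
    · rw [hd3, hc2 x huC]
      exact hα1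
    · rw [hd4, hc1 x hvC, ← hπ1]
      exact fun h => hβ1 (π.injective h)

/-- the graph with only the bridges in `S` -/
def gS (G : SimpleGraph V) (S : Finset (Sym2 V)) : SimpleGraph V where
  Adj a b := G.Adj a b ∧ (¬ G.IsBridge s(a, b) ∨ s(a, b) ∈ S)
  symm := ⟨fun _ _ h => ⟨h.1.symm, by rw [Sym2.eq_swap]; exact h.2⟩⟩
  loopless := ⟨fun _ h => h.1.ne rfl⟩

open Classical in
theorem all [Finite V] (G : SimpleGraph V) (hd : ∀ v, Set.ncard (G.neighborSet v) ≤ 3)
    (h : TC4 (noBr G)) (S : Finset (Sym2 V)) : TC4 (gS G S) := by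
  induction S using Finset.induction_on with
  | empty =>
    have h1 : gS G ∅ = noBr G := by
      ext a b
      change (G.Adj a b ∧ (¬ G.IsBridge s(a, b) ∨ s(a, b) ∈ (∅ : Finset (Sym2 V)))) ↔
        (G.Adj a b ∧ ¬ G.IsBridge s(a, b))
      simp
    rw [h1]
    exact h
  | insert e S he ih =>
    induction e using Sym2.ind with
    | _ u v =>
    by_cases hadj : G.Adj u v ∧ G.IsBridge s(u, v)
    · obtain ⟨h1, h2⟩ := hadj
      have hle : gS G S ≤ G.deleteEdges {s(u, v)} := by
        intro a b hab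
        obtain ⟨k1, k2⟩ := hab
        rw [deleteEdges_adj]
        refine ⟨k1, ?_⟩
        intro k3
        rw [Set.mem_singleton_iff] at k3
        rw [k3] at k2
        rcases k2 with k2 | k2
        · exact k2 h2
        · exact he k2
      have hdeg : ∀ x y, G.Adj x y → s(x, y) = s(u, v) →
          ((gS G S).neighborSet x).ncard ≤ 2 := by
        intro x y hxy he2
        have h5 : (gS G S).neighborSet x ⊆ G.neighborSet x \ {y} := by
          intro z hz
          refine ⟨hz.1, ?_⟩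
          intro hzy
          rw [Set.mem_singleton_iff] at hzy
          have h6 := (deleteEdges_adj.1 (hle hz)).2
          apply h6
          rw [hzy, he2]
          exact Set.mem_singleton _
        have h6 := Set.ncard_le_ncard h5 (Set.toFinite _)
        have h7 : (G.neighborSet x \ {y}).ncard + 1 = (G.neighborSet x).ncard :=
          Set.ncard_sdiff_singleton_add_one hxy (Set.toFinite _)
        have h8 := hd x
        omega
      refine add_edge (gS G S) _ u v ?_ (hdeg u v h1 rfl) (hdeg v u h1.symm Sym2.eq_swap) ?_ ih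
      · intro h3
        exact (isBridge_iff.1 h2) (h3.mono hle)
      · intro a b
        change (G.Adj a b ∧ (¬ G.IsBridge s(a, b) ∨ s(a, b) ∈ insert s(u, v) S)) ↔
          (G.Adj a b ∧ (¬ G.IsBridge s(a, b) ∨ s(a, b) ∈ S)) ∨ _
        rw [Finset.mem_insert, Sym2.eq_iff]
        constructor
        · rintro ⟨k1, k2 | k2 | k2⟩
          · exact Or.inl ⟨k1, Or.inl k2⟩
          · exact Or.inr k2
          · exact Or.inl ⟨k1, Or.inr k2⟩
        · rintro (⟨k1, k2 | k2⟩ | k2)
          · exact ⟨k1, Or.inl k2⟩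
          · exact ⟨k1, Or.inr (Or.inr k2)⟩
          · refine ⟨?_, Or.inr (Or.inl k2)⟩
            rcases k2 with ⟨rfl, rfl⟩ | ⟨rfl, rfl⟩
            · exact h1
            · exact h1.symm
    · have h1 : gS G (insert s(u, v) S) = gS G S := by
        ext a b
        change (G.Adj a b ∧ (¬ G.IsBridge s(a, b) ∨ s(a, b) ∈ insert s(u, v) S)) ↔
          (G.Adj a b ∧ (¬ G.IsBridge s(a, b) ∨ s(a, b) ∈ S))
        rw [Finset.mem_insert]
        constructor
        · rintro ⟨k1, k2 | k2 | k2⟩
          · exact ⟨k1, Or.inl k2⟩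
          · refine ⟨k1, Or.inl ?_⟩
            intro k3
            apply hadj
            rw [← k2]
            refine ⟨?_, k3⟩
            rcases Sym2.eq_iff.1 k2 with ⟨rfl, rfl⟩ | ⟨rfl, rfl⟩
            · exact k1
            · exact k1.symm
          · exact ⟨k1, Or.inr k2⟩
        · rintro ⟨k1, k2 | k2⟩
          · exact ⟨k1, Or.inl k2⟩
          · exact ⟨k1, Or.inr (Or.inr k2)⟩
      rw [h1]
      exact ih

end Bri

/-- BRI. -/
theorem st_BRI : ST_BRI := by
  intro V _ G hd h
  classical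
  haveI := Fintype.ofFinite V
  have h1 := Bri.all G hd h Finset.univ
  have h2 : Bri.gS G Finset.univ = G := by
    ext a b
    change (G.Adj a b ∧ (¬ G.IsBridge s(a, b) ∨ s(a, b) ∈ (Finset.univ : Finset (Sym2 V)))) ↔
      G.Adj a b
    simp
  rwa [h2] at h1

end Pool.Agent.Helper91.TC8
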