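import Pool.Agent.Helper86.TC8.Stmts

/-!
TC8, module GLUE: gluing copies of a subcubic graph along port edges.
-/

set_option autoImplicit false

namespace Pool.Agent.Helper91.TC8

open Pool.Agent.Helper86.TC8
open SimpleGraph

namespace Glue

/-! ### involutions without short relations -/

section Inv

variable {P : Type}

/-- reduced words -/
abbrev RW (l : List P) : Prop := l.IsChain (· ≠ ·)

/-- reduced words of length at most `g` -/
def T (P : Type) (g : ℕ) : Type := {l : List P // l.length ≤ g ∧ RW l}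

instance (g : ℕ) [Finite P] : Finite (T P g) := by
  have h : {l : List P | l.length ≤ g}.Finite := List.finite_length_le P g
  have h2 : {l : List P | l.length ≤ g ∧ RW l}.Finite := h.subset fun l hl => hl.1
  exact h2.to_subtype

open Classical in
/-- multiplication by a letter -/
noncomputable def mv (g : ℕ) (c : P) (l : List P) : List P :=
  if l.head? = some c then l.tail else if l.length < g then c :: l else l

theorem rw_tail {l : List P} (h : RW l) : RW l.tail := by
  cases l with
  | nil => exact List.isChain_nil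
  | cons a l => exact h.tail

theorem rw_cons {c : P} {l : List P} : RW (c :: l) ↔ l.head? ≠ some c ∧ RW l := by
  unfold RW
  rw [List.isChain_cons]
  constructor
  · rintro ⟨h1, h2⟩
    exact ⟨fun h => h1 c h rfl, h2⟩
  · rintro ⟨h1, h2⟩
    exact ⟨fun y hy h => h1 (by rw [h]; exact hy), h2⟩

theorem mv_mem {g : ℕ} {c : P} {l : List P} (h : l.length ≤ g ∧ RW l) :
    (mv g c l).length ≤ g ∧ RW (mv g c l) := by
  unfold mv
  split_ifs with h1 h2
  · exact ⟨by rw [List.length_tail]; omega, rw_tail h.2⟩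
  · exact ⟨by rw [List.length_cons]; omega, rw_cons.2 ⟨h1, h.2⟩⟩
  · exact h

theorem mv_mv {g : ℕ} {c : P} {l : List P} (h : l.length ≤ g ∧ RW l) :
    mv g c (mv g c l) = l := by
  by_cases h1 : l.head? = some c
  · have h2 : mv g c l = l.tail := if_pos h1
    rw [h2]
    cases l with
    | nil => cases h1
    | cons d l =>
      have h3 : d = c := by
        rw [List.head?_cons] at h1
        exact Option.some.inj h1
      subst h3
      have h4 := rw_cons.1 h.2
      have h5 : l.length < g := by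
        have := h.1
        rw [List.length_cons] at this
        omega
      change mv g d l = d :: l
      unfold mv
      rw [if_neg h4.1, if_pos h5]
  · by_cases h2 : l.length < g
    · have h3 : mv g c l = c :: l := by
        unfold mv
        rw [if_neg h1, if_pos h2]
      rw [h3]
      unfold mv
      rw [if_pos List.head?_cons]
      rfl
    · have h3 : mv g c l = l := by
        unfold mv
        rw [if_neg h1, if_neg h2]
      rw [h3, h3]

/-- the involutions -/
noncomputable def sg (g : ℕ) (c : P) : Equiv.Perm (T P g) where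
  toFun t := ⟨mv g c t.1, mv_mem t.2⟩
  invFun t := ⟨mv g c t.1, mv_mem t.2⟩
  left_inv t := Subtype.ext (mv_mv t.2)
  right_inv t := Subtype.ext (mv_mv t.2)

theorem sg_sq (g : ℕ) (c : P) : sg g c * sg g c = 1 :=
  Equiv.ext fun t => Subtype.ext (mv_mv t.2)

theorem sg_prod (g : ℕ) : ∀ (w : List P), RW w → w.length ≤ g →
    (((w.map (sg g)).prod) ⟨[], Nat.zero_le g, List.isChain_nil⟩ : T P g).1 = w := by
  intro w
  induction w with
  | nil =>
    intro _ _
    rfl
  | cons c w ih =>
    intro h1 h2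
    rw [List.length_cons] at h2
    have h3 := rw_cons.1 h1
    have h4 := ih h3.2 (by omega)
    rw [List.map_cons, List.prod_cons, Equiv.Perm.mul_apply]
    change mv g c (((w.map (sg g)).prod) ⟨[], Nat.zero_le g, List.isChain_nil⟩ : T P g).1 = _
    rw [h4]
    unfold mv
    rw [if_neg h3.1, if_pos (by omega)]

theorem sg_ne (g : ℕ) (w : List P) (h1 : RW w) (h2 : w.length ≤ g)
    (h3 : (w.map (sg g)).prod = 1) : w = [] := by
  have h4 := sg_prod g w h1 h2
  rw [h3] at h4
  exact h4.symm

end Inv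

/-! ### the glued graph -/

section Gr

variable {V : Type} {G : SimpleGraph V} {g : ℕ}

/-- letters -/
abbrev P (V : Type) : Type := V × Fin 3

/-- the group -/
abbrev A (V : Type) (g : ℕ) : Type := Equiv.Perm (T (P V) g)

/-- number of missing edges -/
noncomputable def dfc (G : SimpleGraph V) (u : V) : ℕ := 3 - Set.ncard (G.neighborSet u)

/-- adjacency of the glued graph -/
def AdjH (G : SimpleGraph V) (g : ℕ) (a b : V × A V g) : Prop :=
  (a.2 = b.2 ∧ G.Adj a.1 b.1) ∨
    ∃ i : Fin 3, (i : ℕ) < dfc G a.1 ∧ b = (a.1, a.2 * sg g ((a.1, i) : P V))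

/-- the glued graph -/
def H (G : SimpleGraph V) (g : ℕ) (hg : 3 ≤ g) : SimpleGraph (V × A V g) where
  Adj := AdjH G g
  symm := ⟨by
    rintro ⟨u, x⟩ ⟨v, y⟩ (⟨h1, h2⟩ | ⟨i, h1, h2⟩)
    · exact Or.inl ⟨h1.symm, h2.symm⟩
    · right
      have h3 : v = u := congrArg Prod.fst h2
      have h4 : y = x * sg g ((u, i) : P V) := congrArg Prod.snd h2
      subst h3
      refine ⟨i, h1, ?_⟩
      change (v, x) = (v, y * sg g ((v, i) : P V))
      rw [h4, mul_assoc, sg_sq, mul_one]⟩
  loopless := ⟨by
    rintro ⟨u, x⟩ (⟨_, h2⟩ | ⟨i, _, h2⟩)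
    · exact G.loopless.irrefl u h2
    · have h4 : x = x * sg g ((u, i) : P V) := congrArg Prod.snd h2
      have h5 : sg g ((u, i) : P V) = 1 := by
        have := h4.symm
        rwa [mul_eq_left] at this
      have h6 := sg_ne g [((u, i) : P V)] (List.isChain_singleton _)
        (by rw [List.length_singleton]; omega) (by simpa using h5)
      cases h6⟩

variable {hg : 3 ≤ g}

theorem adj_iff {a b : V × A V g} : (H G g hg).Adj a b ↔ AdjH G g a b := Iff.rfl

/-- the walks of the glued graph -/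
theorem walk_word {a b : V × A V g} (p : (H G g hg).Walk a b) (hp : p.IsTrail) :
    ∃ w : List (P V), RW w ∧ b.2 = a.2 * (w.map (sg g)).prod ∧ w.length ≤ p.length ∧
      (∀ c r, w = c :: r → s((c.1, a.2), (c.1, a.2 * sg g c)) ∈ p.edges) ∧
      (w = [] → ∃ q : G.Walk a.1 b.1, q.length = p.length ∧
        q.support.map (fun v => (v, a.2)) = p.support ∧
        q.edges.map (Sym2.map fun v => (v, a.2)) = p.edges) := by
  induction p with
  | nil =>
    refine ⟨[], List.isChain_nil, ?_, ?_, ?_, ?_⟩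
    · simp
    · simp
    · intro c r h
      cases h
    · intro _
      exact ⟨Walk.nil, rfl, rfl, rfl⟩
  | @cons a a' b h p ih =>
    rw [Walk.isTrail_cons] at hp
    obtain ⟨w, hw1, hw2, hw3, hw4, hw5⟩ := ih hp.1
    rcases h with ⟨h1, h2⟩ | ⟨i, h1, h2⟩
    · refine ⟨w, hw1, ?_, ?_, ?_, ?_⟩
      · rw [hw2, h1]
      · rw [Walk.length_cons]
        omega
      · intro c r hc
        rw [Walk.edges_cons, h1]
        exact List.mem_cons_of_mem _ (hw4 c r hc)
      · intro hw
        obtain ⟨q, hq1, hq2, hq3⟩ := hw5 hw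
        have e1 : ((a'.1, a.2) : V × A V g) = a' := Prod.ext rfl h1
        refine ⟨Walk.cons h2 q, ?_, ?_, ?_⟩
        · rw [Walk.length_cons, Walk.length_cons, hq1]
        · rw [Walk.support_cons, Walk.support_cons, List.map_cons, ← hq2, h1]
          congr 1
          exact Prod.ext rfl h1.symm
        · have e2 : Sym2.map (fun v => ((v, a.2) : V × A V g)) s(a.1, a'.1) = s(a, a') := by
            rw [Sym2.map_mk, e1]
          rw [Walk.edges_cons, Walk.edges_cons, List.map_cons, e2, ← hq3, h1]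
    · have h3 : a'.1 = a.1 := by rw [h2]
      have h4 : a'.2 = a.2 * sg g ((a.1, i) : P V) := by rw [h2]
      have h5 : a'.2 * sg g ((a.1, i) : P V) = a.2 := by
        rw [h4, mul_assoc, sg_sq, mul_one]
      refine ⟨(a.1, i) :: w, ?_, ?_, ?_, ?_, ?_⟩
      · rw [rw_cons]
        refine ⟨?_, hw1⟩
        intro h6
        obtain ⟨r, hr⟩ : ∃ r, w = ((a.1, i) : P V) :: r := by
          cases w with
          | nil => cases h6
          | cons d r =>
            rw [List.head?_cons] at h6
            exact ⟨r, by rw [Option.some.inj h6]⟩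
        have h7 := hw4 _ _ hr
        apply hp.2
        have e2 : ((a.1, a'.2) : V × A V g) = a' := Prod.ext h3.symm rfl
        have h8 : s((((a.1, i) : P V).1, a'.2), (((a.1, i) : P V).1, a'.2 *
            sg g ((a.1, i) : P V))) = s(a, a') := by
          rw [h5, Sym2.eq_swap]
          change s((a.1, a.2), (a.1, a'.2)) = s(a, a')
          rw [e2]
        rw [← h8]
        exact h7
      · rw [hw2, h4, List.map_cons, List.prod_cons, mul_assoc]
      · rw [List.length_cons, Walk.length_cons]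
        omega
      · intro c r hc
        have h6 : c = (a.1, i) := (List.cons.inj hc).1.symm
        have h7 : s((c.1, a.2), (c.1, a.2 * sg g c)) = s(a, a') := by
          rw [h6, h2]
        rw [Walk.edges_cons, h7]
        exact List.mem_cons_self
      · intro hc
        cases hc

theorem girthH (hG : GirthGe G g) : GirthGe (H G g hg) g := by
  intro a p hp
  by_contra hlt
  push Not at hlt
  obtain ⟨w, hw1, hw2, hw3, -, hw5⟩ := walk_word p hp.isTrail
  have h1 : (w.map (sg g)).prod = 1 := by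
    have := hw2.symm
    rwa [mul_eq_left] at this
  have h2 := sg_ne g w hw1 (by omega) h1
  obtain ⟨q, hq1, hq2, hq3⟩ := hw5 h2
  have h3l := hp.three_le_length
  have hq : q.IsCycle := by
    rw [Walk.isCycle_def] at hp ⊢
    obtain ⟨k1, k2, k3⟩ := hp
    refine ⟨?_, ?_, ?_⟩
    · rw [Walk.isTrail_def] at k1 ⊢
      rw [← hq3] at k1
      exact List.Nodup.of_map _ k1
    · rintro rfl
      rw [Walk.length_nil] at hq1
      omega
    · rw [← hq2, ← List.map_tail] at k3
      exact List.Nodup.of_map _ k3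
  have := hG _ q hq
  omega

theorem ncard_fin (k : ℕ) (hk : k ≤ 3) : Set.ncard {i : Fin 3 | (i : ℕ) < k} = k := by
  rw [Set.ncard_eq_toFinset_card']
  interval_cases k <;> decide

theorem sg_inj (hg : 3 ≤ g) {c d : P V} (h : sg g c = sg g d) : c = d := by
  by_contra hne
  have h1 : RW [c, d] := by
    unfold RW
    simpa using hne
  have h2 := sg_ne g [c, d] h1 (by simp only [List.length_cons, List.length_nil]; omega) (by
    simp only [List.map_cons, List.map_nil, List.prod_cons, List.prod_nil, mul_one]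
    rw [h, sg_sq])
  cases h2

theorem regH [Finite V] (hd : ∀ v, Set.ncard (G.neighborSet v) ≤ 3) : Reg (H G g hg) 3 := by
  rintro ⟨u, x⟩
  have h1 : (H G g hg).neighborSet (u, x) = (fun v => ((v, x) : V × A V g)) '' G.neighborSet u ∪
      (fun i : Fin 3 => ((u, x * sg g ((u, i) : P V)) : V × A V g)) ''
        {i : Fin 3 | (i : ℕ) < dfc G u} := by
    ext ⟨v, y⟩
    rw [SimpleGraph.mem_neighborSet, adj_iff]
    constructor
    · rintro (⟨h1, h2⟩ | ⟨i, h1, h2⟩)
      · left
        exact ⟨v, h2, Prod.ext rfl h1⟩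
      · right
        exact ⟨i, h1, h2.symm⟩
    · rintro (⟨w, h1, h2⟩ | ⟨i, h1, h2⟩)
      · left
        have h3 : w = v := congrArg Prod.fst h2
        have h4 : x = y := congrArg Prod.snd h2
        subst h3
        exact ⟨h4, h1⟩
      · right
        exact ⟨i, h1, h2.symm⟩
  have h2 : Disjoint ((fun v => ((v, x) : V × A V g)) '' G.neighborSet u)
      ((fun i : Fin 3 => ((u, x * sg g ((u, i) : P V)) : V × A V g)) ''
        {i : Fin 3 | (i : ℕ) < dfc G u}) := by
    rw [Set.disjoint_left]
    rintro _ ⟨v, hv, rfl⟩ ⟨i, _, hi⟩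
    have h3 : u = v := congrArg Prod.fst hi
    subst h3
    exact G.loopless.irrefl u hv
  rw [h1, Set.ncard_union_eq h2 (Set.toFinite _) (Set.toFinite _), Set.ncard_image_of_injective,
    Set.ncard_image_of_injective, ncard_fin]
  · unfold dfc
    have := hd u
    omega
  · unfold dfc
    omega
  · intro i j hij
    have h3 : x * sg g ((u, i) : P V) = x * sg g ((u, j) : P V) := congrArg Prod.snd hij
    exact congrArg Prod.snd (sg_inj hg (mul_left_cancel h3))
  · intro v w hvw
    exact congrArg Prod.fst hvw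

/-- the perfect matching -/
def Mt (hg : 3 ≤ g) (hd : ∀ v, Set.ncard (G.neighborSet v) ≤ 3) (M : SimpleGraph V) (hM : M ≤ G)
    (hc : ∀ v, Set.ncard (G.neighborSet v) = 3 → ∃ w, M.Adj v w) : (H G g hg).Subgraph where
  verts := Set.univ
  Adj a b := (a.2 = b.2 ∧ M.Adj a.1 b.1) ∨
    ((¬ ∃ w, M.Adj a.1 w) ∧ b = (a.1, a.2 * sg g ((a.1, 0) : P V)))
  adj_sub := by
    rintro ⟨u, x⟩ ⟨v, y⟩ (⟨h1, h2⟩ | ⟨h1, h2⟩)
    · exact Or.inl ⟨h1, hM h2⟩
    · right
      refine ⟨0, ?_, h2⟩
      have h3 : Set.ncard (G.neighborSet u) ≠ 3 := fun h => h1 (hc u h)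
      have h4 := hd u
      change 0 < dfc G u
      unfold dfc
      omega
  edge_vert := fun _ => Set.mem_univ _
  symm := ⟨by
    rintro ⟨u, x⟩ ⟨v, y⟩ (⟨h1, h2⟩ | ⟨h1, h2⟩)
    · exact Or.inl ⟨h1.symm, h2.symm⟩
    · right
      have h3 : v = u := congrArg Prod.fst h2
      have h4 : y = x * sg g ((u, 0) : P V) := congrArg Prod.snd h2
      subst h3
      refine ⟨h1, ?_⟩
      change (v, x) = (v, y * sg g ((v, 0) : P V))
      rw [h4, mul_assoc, sg_sq, mul_one]⟩

theorem perfect (hd : ∀ v, Set.ncard (G.neighborSet v) ≤ 3) (M : SimpleGraph V) (hM : M ≤ G)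
    (hu : ∀ v a b, M.Adj v a → M.Adj v b → a = b)
    (hc : ∀ v, Set.ncard (G.neighborSet v) = 3 → ∃ w, M.Adj v w) :
    (Mt hg hd M hM hc).IsPerfectMatching := by
  rw [Subgraph.isPerfectMatching_iff]
  rintro ⟨u, x⟩
  by_cases h : ∃ w, M.Adj u w
  · obtain ⟨w, hw⟩ := h
    refine ⟨(w, x), Or.inl ⟨rfl, hw⟩, ?_⟩
    rintro ⟨v, y⟩ (⟨h1, h2⟩ | ⟨h1, h2⟩)
    · exact Prod.ext (hu u v w h2 hw) h1.symm
    · exact absurd ⟨w, hw⟩ h1
  · refine ⟨(u, x * sg g ((u, 0) : P V)), Or.inr ⟨h, rfl⟩, ?_⟩
    rintro ⟨v, y⟩ (⟨h1, h2⟩ | ⟨h1, h2⟩)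
    · exact absurd ⟨v, h2⟩ h
    · exact h2

end Gr

end Glue

/-- GLUE. -/
theorem st_GLUE : ST_GLUE := by
  intro g hg hP V _ G hd hG M hM hu hc
  obtain ⟨c, d, h1, h2, h3, h4⟩ := hP (V × Glue.A V g) (Glue.H G g hg) (Glue.regH hd)
    (Glue.girthH hG) ⟨_, Glue.perfect hd M hM hu hc⟩
  have hadj : ∀ u v, G.Adj u v → (Glue.H G g hg).Adj (u, 1) (v, 1) :=
    fun u v h => Or.inl ⟨rfl, h⟩
  refine ⟨fun u => c (u, 1), fun u v => d (u, 1) (v, 1), ?_, ?_, ?_, ?_⟩
  · intro u v h
    exact h1 _ _ (hadj u v h)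
  · intro u v h
    exact h2 _ _ (hadj u v h)
  · intro u v w h h' hvw
    exact h3 _ _ _ (hadj u v h) (hadj u w h') (fun he => hvw (congrArg Prod.fst he))
  · intro u v h
    exact h4 _ _ (hadj u v h)

end Pool.Agent.Helper91.TC8
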